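import Mathlib

/-!
# The polarized relation `(ℵ₂, ℵ₃) → ((ℵ₂, ℵ₂), (ℵ₂, ℵ₀))` is a theorem of GCH
-/

namespace Pool.Agent.Results.MP_5cad05_lc.PolarizedGCH

open Cardinal Set

/-- The generalized continuum hypothesis. -/
def GCH : Prop := ∀ κ : Cardinal.{0}, ℵ₀ ≤ κ → (2 : Cardinal.{0}) ^ κ = Order.succ κ

/-- The polarized relation `(κ, lam) → ((η₀, η₁), (η₂, η₃))`: for all sets `A`, `B` of sizes `κ`,
`lam` and every two-colouring `c` of `A × B` there are `H₀ ⊆ A`, `H₁ ⊆ B` with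
`|H₀| = η₀`, `|H₁| = η₂` and all of `H₀ × H₁` in colour `false` (the class `Δ₀`), or
`|H₀| = η₁`, `|H₁| = η₃` and all of `H₀ × H₁` in colour `true` (the class `Δ₁`). -/
def Polarized (κ lam η₀ η₁ η₂ η₃ : Cardinal.{0}) : Prop :=
  ∀ (A B : Type), #A = κ → #B = lam → ∀ c : A → B → Bool,
    (∃ (H₀ : Set A) (H₁ : Set B), #H₀ = η₀ ∧ #H₁ = η₂ ∧ ∀ x ∈ H₀, ∀ y ∈ H₁, c x y = false) ∨
    (∃ (H₀ : Set A) (H₁ : Set B), #H₀ = η₁ ∧ #H₁ = η₃ ∧ ∀ x ∈ H₀, ∀ y ∈ H₁, c x y = true)

/-- transfinite recursion with a side condition on the set of earlier values -/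
theorem exists_seq {I α : Type} [LinearOrder I] [WellFoundedLT I] (P : I → Set α → α → Prop)
    (h : ∀ (i : I) (f : Iio i → α), ∃ x, P i (range f) x) :
    ∃ g : I → α, ∀ i, P i (g '' Iio i) (g i) := by
  classical
  choose F hF using h
  let g : I → α := WellFounded.fix (C := fun _ => α) (wellFounded_lt (α := I))
    (fun i r => F i (fun j => r j.1 j.2))
  have hg : ∀ i, g i = F i (fun j => g j.1) := fun i =>
    WellFounded.fix_eq (C := fun _ => α) (wellFounded_lt (α := I)) _ i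
  refine ⟨g, fun i => ?_⟩
  have h1 := hF i (fun j => g j.1)
  rw [← hg i] at h1
  convert h1 using 1
  ext x
  simp

section

variable {A B : Type} {μ : Cardinal.{0}} (hμ : ℵ₀ ≤ μ) (hpow : μ ^ ℵ₀ ≤ μ)
  {c : A → B → Bool}
  (h1 : ¬ ∃ (H₀ : Set A) (H₁ : Set B), #H₀ = Order.succ μ ∧ #H₁ = ℵ₀ ∧
    ∀ x ∈ H₀, ∀ y ∈ H₁, c x y = true)

theorem exists_sub {α : Type} {κ : Cardinal.{0}} (s : Set α) (h : κ ≤ #s) :
    ∃ t ⊆ s, #t = κ := by
  obtain ⟨t, ht, h'⟩ := le_mk_iff_exists_subset.1 h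
  exact ⟨t, ht, h'⟩

include hμ hpow h1 in
theorem trace_finite (K : Set B) (hK : #K ≤ μ) :
    #{x : A | (K ∩ {y | c x y = true}).Infinite} ≤ μ := by
  have hsub : {x : A | (K ∩ {y | c x y = true}).Infinite} ⊆
      ⋃ f : {f : ℕ → K // Function.Injective f}, {x : A | ∀ n, c x (f.1 n) = true} := by
    intro x hx
    rw [mem_iUnion]
    have hx' : (K ∩ {y | c x y = true}).Infinite := hx
    let e := Set.Infinite.natEmbedding _ hx'
    refine ⟨⟨fun n => ⟨(e n).1, (e n).2.1⟩, ?_⟩, ?_⟩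
    · intro a b hab
      have : (e a).1 = (e b).1 := congrArg (fun z : K => z.1) hab
      exact e.injective (Subtype.ext this)
    · intro n
      exact (e n).2.2
  refine (mk_le_mk_of_subset hsub).trans ?_
  refine (mk_iUnion_le _).trans ?_
  have hcard : #{f : ℕ → K // Function.Injective f} ≤ μ := by
    refine (mk_subtype_le _).trans ?_
    rw [← power_def, mk_nat]
    exact (power_le_power_right hK).trans hpow
  have hsup : (⨆ f : {f : ℕ → K // Function.Injective f},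
      #{x : A | ∀ n, c x (f.1 n) = true}) ≤ μ := by
    refine ciSup_le' fun f => ?_
    by_contra hlt
    push Not at hlt
    obtain ⟨H₀, hH₀, hc⟩ := exists_sub _ (Order.succ_le_of_lt hlt)
    refine h1 ⟨H₀, range (fun n => (f.1 n).1), hc, ?_, ?_⟩
    · rw [mk_range_eq _ (fun a b hab => f.2 (Subtype.ext hab)), mk_nat]
    · rintro x hx _ ⟨n, rfl⟩
      exact hH₀ hx n
  exact (mul_le_mul' hcard hsup).trans (mul_eq_self hμ).le

include hμ hpow h1 in
/-- the main recursion -/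
theorem recursion (h0 : ¬ ∃ (H₀ : Set A) (H₁ : Set B), #H₀ = Order.succ μ ∧
      #H₁ = Order.succ μ ∧ ∀ x ∈ H₀, ∀ y ∈ H₁, c x y = false)
    (X : Set A) (hX : #X = Order.succ μ) (H : Set B)
    (hL : ∀ L : Set A, L ⊆ X → L.Nonempty → #L ≤ μ →
      Order.succ μ ≤ #(H ∩ {y | ∀ x ∈ L, c x y = false} : Set B)) : False := by
  classical
  have hs : ℵ₀ ≤ Order.succ μ := hμ.trans (Order.le_succ μ)
  let I : Type := (Order.succ μ).ord.ToType
  have hI : #I = Order.succ μ := by simp [I]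
  have hseg : ∀ i : I, #(Iio i) ≤ μ := by
    intro i
    have : #(Iio i) < #I := Cardinal.mk_Iio_lt i (by
      rw [mk_toType, card_ord, Ordinal.type_toType])
    rw [hI] at this
    exact Order.lt_succ_iff.1 this
  obtain ⟨g, hg⟩ := exists_seq (I := I) (α := A × B) (fun _ Q p =>
    p.1 ∈ X ∧ p.1 ∉ Prod.fst '' Q ∧ ((Prod.snd '' Q) ∩ {y | c p.1 y = true}).Finite ∧
    p.2 ∉ Prod.snd '' Q ∧ c p.1 p.2 = false ∧ ∀ q ∈ Q, q.1 ∈ X → c q.1 p.2 = false) (by
    intro i f
    set Q := range f with hQ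
    have hQc : #Q ≤ μ := mk_range_le.trans (hseg i)
    have hK : #(Prod.snd '' Q) ≤ μ := mk_image_le.trans hQc
    have hF : #(Prod.fst '' Q) ≤ μ := mk_image_le.trans hQc
    have hbad : #((Prod.fst '' Q) ∪ {x : A | ((Prod.snd '' Q) ∩ {y | c x y = true}).Infinite} :
        Set A) ≤ μ := by
      refine (mk_union_le _ _).trans ?_
      exact (add_le_add hF (trace_finite hμ hpow h1 _ hK)).trans (add_eq_self hμ).le
    obtain ⟨x, hxX, hx⟩ : ∃ x ∈ X, x ∉ ((Prod.fst '' Q) ∪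
        {x : A | ((Prod.snd '' Q) ∩ {y | c x y = true}).Infinite} : Set A) := by
      by_contra hcon
      push Not at hcon
      have : #X ≤ μ := (mk_le_mk_of_subset hcon).trans hbad
      rw [hX] at this
      exact absurd (Order.lt_succ μ) (not_lt.2 this)
    have hx1 : x ∉ Prod.fst '' Q := fun h => hx (Or.inl h)
    have hx2 : ((Prod.snd '' Q) ∩ {y | c x y = true}).Finite := by
      by_contra h
      exact hx (Or.inr h)
    let L : Set A := insert x ((Prod.fst '' Q) ∩ X)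
    have hLc : #L ≤ μ := by
      refine (mk_insert_le).trans ?_
      refine (add_le_add ((mk_le_mk_of_subset inter_subset_left).trans hF)
        (one_le_aleph0.trans hμ)).trans (add_eq_self hμ).le
    have hLX : L ⊆ X := insert_subset hxX inter_subset_right
    have h5 := hL L hLX ⟨x, mem_insert _ _⟩ hLc
    obtain ⟨y, hy, hyQ⟩ : ∃ y ∈ (H ∩ {y | ∀ x ∈ L, c x y = false} : Set B),
        y ∉ Prod.snd '' Q := by
      by_contra hcon
      push Not at hcon
      have : #(H ∩ {y | ∀ x ∈ L, c x y = false} : Set B) ≤ μ :=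
        (mk_le_mk_of_subset hcon).trans hK
      exact absurd (Order.lt_succ μ) (not_lt.2 (h5.trans this))
    refine ⟨(x, y), hxX, hx1, hx2, hyQ, hy.2 x (mem_insert _ _), ?_⟩
    intro q hq hqX
    exact hy.2 q.1 (mem_insert_of_mem _ ⟨⟨q, hq, rfl⟩, hqX⟩))
  have hXg : ∀ i, (g i).1 ∈ X := fun i => (hg i).1
  have hinj1 : Function.Injective fun i => (g i).1 := by
    intro i j hij
    by_contra hne
    rcases lt_or_gt_of_ne hne with h | h
    · exact (hg j).2.1 ⟨g i, ⟨i, h, rfl⟩, hij⟩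
    · exact (hg i).2.1 ⟨g j, ⟨j, h, rfl⟩, hij.symm⟩
  have hinj2 : Function.Injective fun i => (g i).2 := by
    intro i j hij
    by_contra hne
    rcases lt_or_gt_of_ne hne with h | h
    · exact (hg j).2.2.2.1 ⟨g i, ⟨i, h, rfl⟩, hij⟩
    · exact (hg i).2.2.2.1 ⟨g j, ⟨j, h, rfl⟩, hij.symm⟩
  have hfin : ∀ i, {j | c (g i).1 (g j).2 = true}.Finite := by
    intro i
    have hsub : {j | c (g i).1 (g j).2 = true} ⊆
        (fun j => (g j).2) ⁻¹' ((Prod.snd '' (g '' Iio i)) ∩ {y | c (g i).1 y = true}) := by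
      intro j hj
      have hj' : c (g i).1 (g j).2 = true := hj
      refine ⟨?_, hj'⟩
      rcases lt_trichotomy j i with h | h | h
      · exact ⟨g j, ⟨j, h, rfl⟩, rfl⟩
      · subst h
        rw [(hg j).2.2.2.2.1] at hj'
        exact absurd hj' (by simp)
      · rw [(hg j).2.2.2.2.2 (g i) ⟨i, h, rfl⟩ (hXg i)] at hj'
        exact absurd hj' (by simp)
    exact ((hg i).2.2.1.preimage hinj2.injOn).subset hsub
  -- split the index set into countably many large pieces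
  obtain ⟨e⟩ : Nonempty (I × ℕ ≃ I) := by
    refine Cardinal.eq.1 ?_
    rw [mk_prod, lift_id, lift_id, mk_nat, hI]
    exact mul_aleph0_eq hs
  have hpiece : ∀ i : I, ∃ n : ℕ, ∀ k : I, c (g i).1 (g (e (k, n))).2 = false := by
    intro i
    have h2 : ((fun j : I => (e.symm j).2) '' {j | c (g i).1 (g j).2 = true}).Finite :=
      (hfin i).image _
    obtain ⟨n, hn⟩ := h2.exists_notMem
    refine ⟨n, fun k => ?_⟩
    by_contra hne
    have hne' : c (g i).1 (g (e (k, n))).2 = true := by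
      cases h : c (g i).1 (g (e (k, n))).2
      · exact absurd h hne
      · rfl
    exact hn ⟨e (k, n), hne', by simp⟩
  choose ν hν using hpiece
  obtain ⟨n, hn⟩ : ∃ n : ℕ, Order.succ μ ≤ #(ν ⁻¹' {n} : Set I) := by
    by_contra hcon
    push Not at hcon
    have huniv : (univ : Set I) = ⋃ n, ν ⁻¹' {n} := by
      ext i
      simp
    have h3 : #(univ : Set I) ≤ μ := by
      rw [huniv]
      refine (mk_iUnion_le _).trans ?_
      have h4 : (⨆ n, #(ν ⁻¹' {n} : Set I)) ≤ μ :=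
        ciSup_le' fun n => Order.lt_succ_iff.1 (hcon n)
      rw [mk_nat]
      exact (mul_le_mul' hμ h4).trans (mul_eq_self hμ).le
    rw [mk_univ, hI] at h3
    exact absurd (Order.lt_succ μ) (not_lt.2 h3)
  refine h0 ⟨(fun i => (g i).1) '' (ν ⁻¹' {n}), range fun k => (g (e (k, n))).2, ?_, ?_, ?_⟩
  · rw [mk_image_eq hinj1]
    refine le_antisymm ?_ hn
    exact (mk_set_le _).trans hI.le
  · rw [mk_range_eq, hI]
    intro a b hab
    have := e.injective (hinj2 hab)
    exact (Prod.ext_iff.1 this).1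
  · rintro _ ⟨i, hi, rfl⟩ _ ⟨k, rfl⟩
    have hi' : ν i = n := hi
    have := hν i k
    rw [hi'] at this
    exact this

end

/-- The positive relation at a successor cardinal `μ⁺` with `μ^ω = μ` and `2^μ = μ⁺`. -/
theorem general {μ : Cardinal.{0}} (hμ : ℵ₀ ≤ μ) (hpow : μ ^ ℵ₀ ≤ μ)
    (h2 : (2 : Cardinal.{0}) ^ μ = Order.succ μ) :
    Polarized (Order.succ μ) (Order.succ (Order.succ μ)) (Order.succ μ) (Order.succ μ)
      (Order.succ μ) ℵ₀ := by
  classical
  intro A B hA hB c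
  by_contra hcon
  rw [not_or] at hcon
  obtain ⟨h0, h1⟩ := hcon
  have hs : ℵ₀ ≤ Order.succ μ := hμ.trans (Order.le_succ μ)
  -- the number of small subsets of `A`
  have hW : #(μ.out → A) ≤ Order.succ μ := by
    rw [← power_def, mk_out, hA, ← h2, ← power_mul, mul_eq_self hμ]
  let u : (μ.out → A) → Set B := fun f => {y | ∀ w, c (f w) y = false}
  let Bad : Set B := ⋃ f : {f : μ.out → A // #(u f) ≤ Order.succ μ}, u f.1
  have hBad : #Bad ≤ Order.succ μ := by
    refine (mk_iUnion_le _).trans ?_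
    have h3 : (⨆ f : {f : μ.out → A // #(u f) ≤ Order.succ μ}, #(u f.1)) ≤ Order.succ μ :=
      ciSup_le' fun f => f.2
    exact (mul_le_mul' ((mk_subtype_le _).trans hW) h3).trans (mul_eq_self hs).le
  -- all but finitely many columns have a large zero set
  have hZ : {y : B | #{x : A | c x y = false} ≤ μ}.Finite := by
    by_contra hinf
    have hinf' : {y : B | #{x : A | c x y = false} ≤ μ}.Infinite := hinf
    let e := Set.Infinite.natEmbedding _ hinf'
    let Z : Set A := ⋃ n, {x : A | c x (e n).1 = false}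
    have hZc : #Z ≤ μ := by
      refine (mk_iUnion_le _).trans ?_
      have h3 : (⨆ n, #{x : A | c x (e n).1 = false}) ≤ μ := ciSup_le' fun n => (e n).2
      rw [mk_nat]
      exact (mul_le_mul' hμ h3).trans (mul_eq_self hμ).le
    have hZd : #(Zᶜ : Set A) = Order.succ μ := by
      have : Infinite A := infinite_iff.2 (by rw [hA]; exact hs)
      have := mk_compl_of_infinite Z (by rw [hA]; exact Order.lt_succ_of_le hZc)
      rw [this, hA]
    refine h1 ⟨Zᶜ, range fun n => (e n).1, hZd, ?_, ?_⟩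
    · rw [mk_range_eq _ (fun a b hab => e.injective (Subtype.ext hab)), mk_nat]
    · rintro x hx _ ⟨n, rfl⟩
      by_contra hne
      refine hx (mem_iUnion.2 ⟨n, ?_⟩)
      cases h : c x (e n).1
      · exact h
      · exact absurd h hne
  obtain ⟨y₀, hy₀⟩ : ∃ y₀ : B, y₀ ∉ Bad ∪ {y : B | #{x : A | c x y = false} ≤ μ} := by
    by_contra hcon
    push Not at hcon
    have h3 : #(univ : Set B) ≤ Order.succ μ := by
      refine (mk_le_mk_of_subset fun y _ => hcon y).trans ((mk_union_le _ _).trans ?_)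
      exact (add_le_add hBad ((lt_aleph0_iff_finite.2 hZ).le.trans hs)).trans (add_eq_self hs).le
    rw [mk_univ, hB] at h3
    exact absurd (Order.lt_succ (Order.succ μ)) (not_lt.2 h3)
  have hy1 : y₀ ∉ Bad := fun h => hy₀ (Or.inl h)
  have hy2 : μ < #{x : A | c x y₀ = false} := by
    by_contra h
    exact hy₀ (Or.inr (not_lt.1 h))
  obtain ⟨X, hXsub, hX⟩ := exists_sub _ (Order.succ_le_of_lt hy2)
  have hlarge : ∀ f : {f : μ.out → A // ∀ w, f w ∈ X}, ∃ t ⊆ u f.1, #t = Order.succ μ := by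
    intro f
    refine exists_sub _ ?_
    by_contra hlt
    push Not at hlt
    exact hy1 (mem_iUnion.2 ⟨⟨f.1, hlt.le⟩, fun w => hXsub (f.2 w)⟩)
  choose t ht htc using hlarge
  refine recursion hμ hpow h1 h0 X hX (⋃ f, t f) ?_
  intro L hLX hLne hLc
  obtain ⟨f, hf⟩ : ∃ f : μ.out → A, range f = L := by
    have : #L ≤ #μ.out := by rw [mk_out]; exact hLc
    obtain ⟨e⟩ := this
    have : Nonempty L := hLne.to_subtype
    refine ⟨fun w => (Function.invFun e w : L), ?_⟩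
    ext x
    constructor
    · rintro ⟨w, rfl⟩
      exact (Function.invFun e w).2
    · intro hx
      exact ⟨e ⟨x, hx⟩, congrArg Subtype.val (Function.leftInverse_invFun e.injective ⟨x, hx⟩)⟩
  have hfX : ∀ w, f w ∈ X := fun w => hLX (hf ▸ mem_range_self w)
  rw [← htc ⟨f, hfX⟩]
  refine mk_le_mk_of_subset fun y hy => ⟨mem_iUnion.2 ⟨_, hy⟩, ?_⟩
  intro x hx
  rw [← hf] at hx
  obtain ⟨w, rfl⟩ := hx
  exact ht ⟨f, hfX⟩ hy w

/-- GCH implies `(ℵ₂, ℵ₃) → ((ℵ₂, ℵ₂), (ℵ₂, ℵ₀))`. -/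
theorem result (hGCH : GCH) : Polarized (ℵ_ 2) (ℵ_ 3) (ℵ_ 2) (ℵ_ 2) (ℵ_ 2) (ℵ_ 0) := by
  have h1 : Order.succ (ℵ_ 1) = ℵ_ 2 := by
    rw [succ_aleph]; norm_num
  have h2 : Order.succ (ℵ_ 2) = ℵ_ 3 := by
    rw [succ_aleph]; norm_num
  have h0 : Order.succ ℵ₀ = ℵ_ 1 := succ_aleph0
  have hμ : ℵ₀ ≤ ℵ_ 1 := aleph0_le_aleph 1
  have hpow : (ℵ_ 1) ^ ℵ₀ ≤ ℵ_ 1 := by
    rw [← h0, ← hGCH ℵ₀ le_rfl, ← power_mul, aleph0_mul_aleph0]
  have h := general hμ hpow (hGCH _ hμ)
  rw [h1, h2] at h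
  rw [aleph_zero]
  exact h

end Pool.Agent.Results.MP_5cad05_lc.PolarizedGCH
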